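import Pool.Agent.Helper4.HZ.Goals2

/-!
# Packet KOI (MP_af40fb_al): lower bounds for the orders of the classical groups
-/

namespace Pool.Agent.Helper39.HZ

open Pool.Agent.Helper4.HZ Finset

theorem pow_le_sub {q : ℕ} (hq : 2 ≤ q) (m : ℕ) : q ^ m ≤ q ^ (m + 1) - 1 := by
  have h1 : 1 ≤ q ^ m := Nat.one_le_pow _ _ (by omega)
  have h2 : 2 * q ^ m ≤ q ^ (m + 1) := by
    rw [pow_succ, mul_comm (q ^ m)]
    exact Nat.mul_le_mul_right _ hq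
  omega

theorem pow_le_add {q : ℕ} (hq : 2 ≤ q) (m : ℕ) : q ^ m ≤ q ^ (m + 1) + 1 := by
  have h2 : q ^ m ≤ q ^ (m + 1) := Nat.pow_le_pow_right (by omega) (by omega)
  omega

theorem sum_id (n : ℕ) : 2 * ∑ i ∈ Icc 1 n, i = n * (n + 1) := by
  induction n with
  | zero => simp
  | succ n ih =>
    rw [Finset.sum_Icc_succ_top (by omega), mul_add, ih]
    ring

theorem sum_odd (n : ℕ) : ∑ i ∈ Icc 1 n, (2 * i - 1) = n ^ 2 := by
  induction n with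
  | zero => simp
  | succ n ih =>
    rw [Finset.sum_Icc_succ_top (by omega), ih]
    have : 2 * (n + 1) - 1 = 2 * n + 1 := by omega
    rw [this]
    ring

/-- The comparison after multiplication by the denominator. -/
theorem div_ge {a N g : ℕ} (hg : 0 < g) (hd : g ∣ N) (h : g * a ≤ 12 * N) :
    a ≤ 12 * (N / g) := by
  obtain ⟨m, rfl⟩ := hd
  rw [Nat.mul_div_cancel_left _ hg]
  have : g * a ≤ g * (12 * m) := by
    calc g * a ≤ 12 * (g * m) := h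
      _ = g * (12 * m) := by ring
  exact Nat.le_of_mul_le_mul_left this hg

theorem sub_dvd (q : ℕ) : q - 1 ∣ q ^ 2 - 1 := by
  have := Nat.sub_dvd_pow_sub_pow q 1 2
  simpa using this

theorem add_dvd (q : ℕ) : q + 1 ∣ q ^ 2 - 1 := by
  have h := Nat.sq_sub_sq q 1
  rw [one_pow] at h
  exact ⟨q - 1, h⟩

/-- Part `A` and `²A`. -/
theorem partA {n q g : ℕ} (hq : 2 ≤ q) (hn : 2 ≤ n) (f : ℕ → ℕ) (hf : ∀ i, q ^ i ≤ f i)
    (hg : 0 < g) (hg1 : g ≤ n + 1) (hg2 : g ≤ q + 1) (hd : g ∣ f 1) :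
    2 ^ n * q ^ 6 ≤ 12 * (q ^ (n * (n + 1) / 2) * (∏ i ∈ Icc 1 n, f i) / g) := by
  have h1 : q ^ ∑ i ∈ Icc 1 n, i ≤ ∏ i ∈ Icc 1 n, f i := by
    rw [← Finset.prod_pow_eq_pow_sum]
    exact Finset.prod_le_prod' fun i _ => hf i
  have h2 := sum_id n
  have h3 : n * (n + 1) / 2 = ∑ i ∈ Icc 1 n, i := by omega
  have h4 : q ^ (n * (n + 1)) ≤ q ^ (n * (n + 1) / 2) * ∏ i ∈ Icc 1 n, f i := by
    calc q ^ (n * (n + 1)) = q ^ (∑ i ∈ Icc 1 n, i) * q ^ (∑ i ∈ Icc 1 n, i) := by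
          rw [← pow_add, ← h2, two_mul]
      _ ≤ _ := by
          rw [h3]
          exact Nat.mul_le_mul_left _ h1
  refine div_ge hg ((hd.trans (Finset.dvd_prod_of_mem f (by simp; omega))).mul_left _) ?_
  rcases Nat.lt_or_ge n 3 with h5 | h5
  · have h6 : n = 2 := by omega
    subst h6
    calc g * (2 ^ 2 * q ^ 6) ≤ 3 * (2 ^ 2 * q ^ 6) := Nat.mul_le_mul_right _ (by omega)
      _ = 12 * q ^ (2 * (2 + 1)) := by ring
      _ ≤ _ := Nat.mul_le_mul_left _ h4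
  · have h6 : g * (2 ^ n * q ^ 6) ≤ q ^ (n + 8) := by
      calc g * (2 ^ n * q ^ 6) ≤ q ^ 2 * (q ^ n * q ^ 6) := by
            apply Nat.mul_le_mul _ (Nat.mul_le_mul_right _ (Nat.pow_le_pow_left hq n))
            nlinarith
        _ = q ^ (n + 8) := by ring
    have h7 : q ^ (n + 8) ≤ q ^ (n * (n + 1)) := Nat.pow_le_pow_right (by omega) (by nlinarith)
    calc g * (2 ^ n * q ^ 6) ≤ _ := h6.trans (h7.trans h4)
      _ ≤ _ := Nat.le_mul_of_pos_left _ (by norm_num)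

theorem prod_even {q : ℕ} (hq : 2 ≤ q) (n : ℕ) :
    q ^ n ^ 2 ≤ ∏ i ∈ Icc 1 n, (q ^ (2 * i) - 1) := by
  rw [← sum_odd, ← Finset.prod_pow_eq_pow_sum]
  refine Finset.prod_le_prod' fun i hi => ?_
  rw [Finset.mem_Icc] at hi
  have h := pow_le_sub hq (2 * i - 1)
  have e : 2 * i - 1 + 1 = 2 * i := by omega
  rw [e] at h
  exact h

theorem two_pow_le {q a b : ℕ} (hq : 2 ≤ q) (h : a + 6 ≤ b) : 2 ^ a * q ^ 6 ≤ q ^ b := by
  calc 2 ^ a * q ^ 6 ≤ q ^ a * q ^ 6 := Nat.mul_le_mul_right _ (Nat.pow_le_pow_left hq a)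
    _ = q ^ (a + 6) := by rw [pow_add]
    _ ≤ q ^ b := Nat.pow_le_pow_right (by omega) h

/-- Part `D` and `²D`, `n = k + 1`. -/
theorem partD {k q x : ℕ} (hq : 2 ≤ q) (hk : 3 ≤ k) (hx : q ^ k ≤ x) :
    2 ^ (k + 1) * q ^ 6 ≤ 12 * (q ^ ((k + 1) * (k + 1 - 1)) * x *
      (∏ i ∈ Icc 1 (k + 1 - 1), (q ^ (2 * i) - 1)) / Nat.gcd 4 x) := by
  have hg : 0 < Nat.gcd 4 x := Nat.gcd_pos_of_pos_left _ (by norm_num)
  have hg4 : Nat.gcd 4 x ≤ 4 := Nat.le_of_dvd (by norm_num) (Nat.gcd_dvd_left 4 x)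
  rw [Nat.add_sub_cancel]
  refine div_ge hg (((Nat.gcd_dvd_right 4 x).mul_left _).mul_right _) ?_
  have h1 : q ^ (2 * k ^ 2 + 2 * k) ≤ q ^ ((k + 1) * k) * x *
      ∏ i ∈ Icc 1 k, (q ^ (2 * i) - 1) := by
    calc q ^ (2 * k ^ 2 + 2 * k) = q ^ ((k + 1) * k) * q ^ k * q ^ k ^ 2 := by
          rw [← pow_add, ← pow_add]; congr 1; ring
      _ ≤ _ := Nat.mul_le_mul (Nat.mul_le_mul_left _ hx) (prod_even hq k)
  have h2 : 2 ^ (k + 1) * q ^ 6 ≤ q ^ (2 * k ^ 2 + 2 * k) := two_pow_le hq (by nlinarith)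
  calc Nat.gcd 4 x * (2 ^ (k + 1) * q ^ 6) ≤ 12 * (2 ^ (k + 1) * q ^ 6) :=
        Nat.mul_le_mul_right _ (by omega)
    _ ≤ _ := Nat.mul_le_mul_left _ (h2.trans h1)

/-- **KOI.** -/
theorem KOI_holds : S_KOI := by
  intro n q hq
  refine ⟨fun hn => ⟨?_, ?_, ?_⟩, fun hn => ⟨?_, ?_⟩⟩
  · have hg := Nat.gcd_dvd_right (n + 1) (q - 1)
    exact partA hq hn (fun i => q ^ (i + 1) - 1) (fun i => pow_le_sub hq i)
      (Nat.gcd_pos_of_pos_left _ (by omega))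
      (Nat.le_of_dvd (by omega) (Nat.gcd_dvd_left _ _))
      ((Nat.le_of_dvd (by omega) hg).trans (by omega)) (hg.trans (sub_dvd q))
  · have hg := Nat.gcd_dvd_right (n + 1) (q + 1)
    refine partA hq hn (fun i => if Even (i + 1) then q ^ (i + 1) - 1 else q ^ (i + 1) + 1)
      (fun i => ?_) (Nat.gcd_pos_of_pos_left _ (by omega))
      (Nat.le_of_dvd (by omega) (Nat.gcd_dvd_left _ _))
      (Nat.le_of_dvd (by omega) hg) ?_
    · split_ifs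
      · exact pow_le_sub hq i
      · exact pow_le_add hq i
    · simp only [Nat.reduceAdd, even_two, if_true]
      exact hg.trans (add_dvd q)
  · unfold oB
    have hg := Nat.gcd_dvd_right 2 (q - 1)
    have hg2 : Nat.gcd 2 (q - 1) ≤ 2 := Nat.le_of_dvd (by norm_num) (Nat.gcd_dvd_left _ _)
    have hd : Nat.gcd 2 (q - 1) ∣ ∏ i ∈ Icc 1 n, (q ^ (2 * i) - 1) := by
      refine (hg.trans (sub_dvd q)).trans ?_
      have := Finset.dvd_prod_of_mem (fun i => q ^ (2 * i) - 1) (a := 1) (s := Icc 1 n)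
        (by simp; omega)
      simpa using this
    refine div_ge (Nat.gcd_pos_of_pos_left _ (by norm_num)) (hd.mul_left _) ?_
    have h1 : q ^ (2 * n ^ 2) ≤ q ^ n ^ 2 * ∏ i ∈ Icc 1 n, (q ^ (2 * i) - 1) := by
      calc q ^ (2 * n ^ 2) = q ^ n ^ 2 * q ^ n ^ 2 := by rw [← pow_add, two_mul]
        _ ≤ _ := Nat.mul_le_mul_left _ (prod_even hq n)
    have h2 : 2 ^ n * q ^ 6 ≤ q ^ (2 * n ^ 2) := two_pow_le hq (by nlinarith)
    calc Nat.gcd 2 (q - 1) * (2 ^ n * q ^ 6) ≤ 12 * (2 ^ n * q ^ 6) :=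
          Nat.mul_le_mul_right _ (by omega)
      _ ≤ _ := Nat.mul_le_mul_left _ (h2.trans h1)
  · obtain ⟨k, rfl⟩ : ∃ k, n = k + 1 := ⟨n - 1, by omega⟩
    exact partD hq (by omega) (pow_le_sub hq k)
  · obtain ⟨k, rfl⟩ : ∃ k, n = k + 1 := ⟨n - 1, by omega⟩
    exact partD hq (by omega) (pow_le_add hq k)

end Pool.Agent.Helper39.HZ
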