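import Pool.Agent.Helper39.HZ.QUO

/-!
# Packet PSM (MP_af40fb_al): factors `PSL₂(p)`, `p > 7`, occur at least twice
-/

namespace Pool.Agent.Helper39.HZ

open Pool.Agent.Helper4.HZ

theorem psl2_NS {p : ℕ} [Fact p.Prime] (hp : 3 < p) : NS (PSL2 p) := by
  obtain ⟨hs, hc⟩ := psl2_simple hp
  refine ⟨hs, ?_⟩
  by_contra h
  push Not at h
  have h1 : Subgroup.center (PSL2 p) = ⊤ := by
    rw [eq_top_iff]
    intro g _
    rw [Subgroup.mem_center_iff]
    intro x
    exact h x g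
  rw [hc] at h1
  exact bot_ne_top h1

/-- **PSM.** -/
theorem PSM_holds (hTRC : S_TRC) (hQUO : S_QUO) (hJHU : S_JHU) : S_PSM := by
  intro G _ _ p _ z i α r K hG hz hM hα hi hp hser j hj hFI
  have hch := hser.chief j hj
  obtain ⟨f, hf, hker⟩ := hQUO G p (K j) (K (j + 1)) hG (by omega) hch.nK hch.nL hch.lt.le hFI
  have hNS : NS (PSL2 p) := psl2_NS (by omega)
  have hnt : Nontrivial (PSL2 p) := hNS.1.toNontrivial
  have hf' : Function.Surjective (f.comp α.symm.toMonoidHom) := by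
    intro t
    obtain ⟨g, rfl⟩ := hf t
    exact ⟨α g, by simp⟩
  obtain ⟨j', hj', hFI', hker'⟩ := hJHU G (PSL2 p) (f.comp α.symm.toMonoidHom) r K hNS hf' hser
  refine ⟨j', hj', ?_, hFI'⟩
  rintro rfl
  have hk : ∀ g, f g = 1 ↔ f (α g) = 1 := by
    intro g
    rw [hker (α g), ← hker' (α g)]
    simp
  let φ0 : PSL2 p →* PSL2 p := (f.liftOfSurjective hf) ⟨f.comp α.toMonoidHom, by
    intro g hg
    rw [MonoidHom.mem_ker] at hg ⊢
    exact (hk g).1 hg⟩
  have hφ0 : ∀ g, φ0 (f g) = f (α g) := by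
    intro g
    erw [MonoidHom.liftOfRightInverse_comp_apply]
    rfl
  have hbij : Function.Bijective φ0 := by
    constructor
    · rw [injective_iff_map_eq_one]
      intro t ht
      obtain ⟨g, rfl⟩ := hf t
      rw [hφ0] at ht
      exact (hk g).2 ht
    · intro t
      obtain ⟨g, rfl⟩ := hf t
      exact ⟨f (α.symm g), by rw [hφ0]; simp⟩
  refine hTRC p hp (MulEquiv.ofBijective φ0 hbij) (f z) i ?_ ?_ hi ?_
  · rw [← map_pow, hz, map_one]
  · intro h1
    have h2 := hM f.ker inferInstance h1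
    obtain ⟨a, ha⟩ := exists_ne (1 : PSL2 p)
    obtain ⟨g, rfl⟩ := hf a
    apply ha
    have : g ∈ f.ker := by rw [h2]; trivial
    exact this
  · show φ0 (f z) = f z ^ i
    rw [hφ0, hα, map_pow]

end Pool.Agent.Helper39.HZ
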