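import Pool.Agent.Helper4.HZ.Goals

/-!
# Packet QUO (MP_af40fb_al): the quotient by the centraliser of a factor `PSL₂(p)`
-/

namespace Pool.Agent.Helper39.HZ

open Pool.Agent.Helper4.HZ

theorem psl2_simple {p : ℕ} [Fact p.Prime] (hp : 3 < p) :
    IsSimpleGroup (PSL2 p) ∧ Subgroup.center (PSL2 p) = ⊥ := by
  have hF : ∃ a : ZMod p, a ≠ 0 ∧ a ^ 2 ≠ 1 := by
    refine ⟨2, ?_, ?_⟩
    · intro h
      have h2 : ((2 : ℕ) : ZMod p) = 0 := by exact_mod_cast h
      rw [ZMod.natCast_eq_zero_iff] at h2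
      have := Nat.le_of_dvd (by norm_num) h2
      omega
    · intro h
      have h2 : ((3 : ℕ) : ZMod p) = 0 := by
        have : (3 : ZMod p) = 2 ^ 2 - 1 := by norm_num
        push_cast
        rw [this, h, sub_self]
      rw [ZMod.natCast_eq_zero_iff] at h2
      have := Nat.le_of_dvd (by norm_num) h2
      omega
  have hs : IsSimpleGroup (PSL2 p) := Matrix.ProjectiveSpecialLinearGroup.rank_two_simple' hF
  refine ⟨hs, ?_⟩
  rcases hs.eq_bot_or_eq_top_of_normal (Subgroup.center (PSL2 p)) inferInstance with h | h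
  · exact h
  · exfalso
    have h1 := (commutator_eq_bot_iff_center_eq_top _).2 h
    have h2 : commutator (PSL2 p) = ⊤ := SL2Simple.PSL_commutator_eq_top hF
    rw [h2] at h1
    exact top_ne_bot h1

theorem conj_injective {T : Type} [Group T] (h : Subgroup.center T = ⊥) :
    Function.Injective (MulAut.conj : T →* MulAut T) := by
  intro s t hst
  have h1 : t⁻¹ * s ∈ Subgroup.center T := by
    rw [Subgroup.mem_center_iff]
    intro g
    have h2 := DFunLike.congr_fun hst g
    simp only [MulAut.conj_apply] at h2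
    calc g * (t⁻¹ * s) = t⁻¹ * (t * g * t⁻¹) * s := by group
      _ = t⁻¹ * (s * g * s⁻¹) * s := by rw [← h2]
      _ = t⁻¹ * s * g := by group
  rw [h, Subgroup.mem_bot] at h1
  exact (inv_mul_eq_one.1 h1).symm

/-- The inner automorphisms. -/
abbrev Inn (T : Type) [Group T] : Subgroup (MulAut T) := (MulAut.conj : T →* MulAut T).range

instance (T : Type) [Group T] : (Inn T).Normal := by
  refine ⟨?_⟩
  rintro _ ⟨t, rfl⟩ φ
  refine ⟨φ t, ?_⟩
  ext x
  simp [MulAut.conj_apply]

section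
variable {G : Type} [Group G] {K L : Subgroup G} {T : Type} [Group T]

/-- the homomorphism `e k ↦ e (g k g⁻¹)` -/
noncomputable def cHom (hK : K.Normal) (hL : L.Normal) (e : K →* T) (he : Function.Surjective e)
    (hk : ∀ k : K, e k = 1 ↔ (k : G) ∈ L) (g : G) : T →* T :=
  (e.liftOfSurjective he) ⟨e.comp (MulAut.conjNormal g : MulAut K).toMonoidHom, by
    intro k hk1
    rw [MonoidHom.mem_ker] at hk1 ⊢
    rw [MonoidHom.comp_apply, hk]
    have h1 := (hk k).1 hk1
    exact hL.conj_mem _ h1 g⟩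

theorem cHom_apply (hK : K.Normal) (hL : L.Normal) (e : K →* T) (he : Function.Surjective e)
    (hk : ∀ k : K, e k = 1 ↔ (k : G) ∈ L) (g : G) (k : K) :
    cHom hK hL e he hk g (e k) = e ⟨g * k * g⁻¹, hK.conj_mem _ k.2 g⟩ := by
  rw [cHom]
  erw [MonoidHom.liftOfRightInverse_comp_apply]
  rfl

theorem cHom_mul (hK : K.Normal) (hL : L.Normal) (e : K →* T) (he : Function.Surjective e)
    (hk : ∀ k : K, e k = 1 ↔ (k : G) ∈ L) (g h : G) :
    (cHom hK hL e he hk g).comp (cHom hK hL e he hk h) = cHom hK hL e he hk (g * h) := by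
  ext t
  obtain ⟨k, rfl⟩ := he t
  rw [MonoidHom.comp_apply, cHom_apply, cHom_apply, cHom_apply]
  congr 1
  apply Subtype.ext
  simp only [mul_inv_rev, mul_assoc]

theorem cHom_one (hK : K.Normal) (hL : L.Normal) (e : K →* T) (he : Function.Surjective e)
    (hk : ∀ k : K, e k = 1 ↔ (k : G) ∈ L) : cHom hK hL e he hk 1 = MonoidHom.id T := by
  ext t
  obtain ⟨k, rfl⟩ := he t
  rw [cHom_apply, MonoidHom.id_apply]
  congr 1
  apply Subtype.ext
  simp

/-- the action on `T = K/L` -/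
noncomputable def cAut (hK : K.Normal) (hL : L.Normal) (e : K →* T) (he : Function.Surjective e)
    (hk : ∀ k : K, e k = 1 ↔ (k : G) ∈ L) : G →* MulAut T where
  toFun g := MonoidHom.toMulEquiv (cHom hK hL e he hk g) (cHom hK hL e he hk g⁻¹)
    (by rw [cHom_mul, inv_mul_cancel, cHom_one]) (by rw [cHom_mul, mul_inv_cancel, cHom_one])
  map_one' := by
    ext t
    simp [cHom_one]
  map_mul' g h := by
    ext t
    have := DFunLike.congr_fun (cHom_mul hK hL e he hk g h) t
    simpa using this.symm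

theorem cAut_apply (hK : K.Normal) (hL : L.Normal) (e : K →* T) (he : Function.Surjective e)
    (hk : ∀ k : K, e k = 1 ↔ (k : G) ∈ L) (g : G) (k : K) :
    cAut hK hL e he hk g (e k) = e ⟨g * k * g⁻¹, hK.conj_mem _ k.2 g⟩ :=
  cHom_apply hK hL e he hk g k

theorem quo_main (hG : Perf G) (hK : K.Normal) (hL : L.Normal) (hLK : L ≤ K) (e : K →* T)
    (he : Function.Surjective e) (hk : ∀ k : K, e k = 1 ↔ (k : G) ∈ L)
    (hZ : Subgroup.center T = ⊥)
    (hO : ∀ φ ψ : MulAut T, ∃ t : T, φ * ψ * φ⁻¹ * ψ⁻¹ = MulAut.conj t) :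
    ∃ f : G →* T, Function.Surjective f ∧ ∀ g : G, f g = 1 ↔ g ∈ Cen K L := by
  let c : G →* MulAut T := cAut hK hL e he hk
  let _ : CommGroup (MulAut T ⧸ Inn T) :=
    { (inferInstance : Group (MulAut T ⧸ Inn T)) with
      mul_comm := by
        intro a b
        obtain ⟨φ, rfl⟩ := QuotientGroup.mk_surjective a
        obtain ⟨ψ, rfl⟩ := QuotientGroup.mk_surjective b
        show ((φ * ψ : MulAut T) : MulAut T ⧸ Inn T) = ((ψ * φ : MulAut T) : MulAut T ⧸ Inn T)
        rw [QuotientGroup.eq]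
        obtain ⟨t, ht⟩ := hO ψ⁻¹ φ⁻¹
        refine ⟨t, ?_⟩
        rw [← ht]
        group }
  have hc : ∀ g, c g ∈ Inn T := by
    intro g
    have h1 := hG (MulAut T ⧸ Inn T) ((QuotientGroup.mk' (Inn T)).comp c)
    have h2 := DFunLike.congr_fun h1 g
    rw [← QuotientGroup.eq_one_iff]
    exact h2
  have hinj := conj_injective hZ
  let f : G →* T := (MonoidHom.ofInjective hinj).symm.toMonoidHom.comp (c.codRestrict (Inn T) hc)
  have hf : ∀ g, MulAut.conj (f g) = c g := by
    intro g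
    have h1 := MonoidHom.apply_ofInjective_symm hinj ((c.codRestrict (Inn T) hc) g)
    exact h1
  have hfK : ∀ k : K, f k = e k := by
    intro k
    apply hinj
    rw [hf]
    ext t
    obtain ⟨k', rfl⟩ := he t
    rw [cAut_apply, MulAut.conj_apply, ← map_inv, ← map_mul, ← map_mul]
    rfl
  refine ⟨f, fun t => ?_, fun g => ?_⟩
  · obtain ⟨k, rfl⟩ := he t
    exact ⟨k, hfK k⟩
  · have h1 : f g = 1 ↔ c g = 1 := by
      rw [← hf, map_eq_one_iff _ hinj]
    rw [h1]
    have h2 : ∀ k : K, e ⟨g * k * g⁻¹, hK.conj_mem _ k.2 g⟩ = e k ↔ g * k * g⁻¹ * (k : G)⁻¹ ∈ L := by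
      intro k
      rw [← mul_inv_eq_one, ← map_inv, ← map_mul, hk]
      rfl
    constructor
    · intro h k hkK
      have h3 := cAut_apply hK hL e he hk g ⟨k, hkK⟩
      have h4 : cAut hK hL e he hk g = 1 := h
      rw [h4, MulAut.one_apply] at h3
      exact (h2 ⟨k, hkK⟩).1 h3.symm
    · intro h
      show cAut hK hL e he hk g = 1
      ext t
      obtain ⟨k, rfl⟩ := he t
      rw [cAut_apply, MulAut.one_apply, h2]
      exact h k k.2

end

/-- **QUO.** -/
theorem QUO_holds (h : S_OUT) : S_QUO := by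
  intro G _ _ p _ K L hG hp hK hL hLK hFI
  obtain ⟨e, he, hk⟩ := hFI
  exact quo_main hG hK hL hLK e he hk (psl2_simple hp).2 (h p)

end Pool.Agent.Helper39.HZ
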